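import Pool.Agent.Helper68.QC.St2

/-!
Project QD, part M (MP_d112a4_gt), module WEY: the lemma of Weyl.
-/

set_option autoImplicit false

open MeasureTheory Set Filter Topology Complex
open scoped ContDiff ComplexConjugate ENNReal

namespace Pool.Agent.Helper73.QCM

open Pool.Agent.Helper68.QC

theorem pWEY (hMO1 : StMO1) (hMO2 : StMO2) : Pool.Agent.Helper68.QC.StWEY := by
  intro U f hU hf htest z₀ hz₀
  obtain ⟨R, hR, hRU⟩ := Metric.nhds_basis_closedBall.mem_iff.1 (hU.mem_nhds hz₀)
  set r : ℝ := R / 3 with hr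
  have hr0 : 0 < r := by positivity
  let b : ContDiffBump z₀ := ⟨2 * r, 3 * r, by positivity, by linarith⟩
  have hbt : tsupport (b : ℂ → ℝ) ⊆ U := by
    rw [b.tsupport_eq]
    refine Subset.trans ?_ hRU
    refine Metric.closedBall_subset_closedBall ?_
    change 3 * r ≤ R
    rw [hr]
    linarith
  set F : ℂ → ℂ := fun y => ((b y : ℝ) : ℂ) * f y with hFdef
  have hFc : Continuous F := by
    rw [continuous_iff_continuousAt]
    intro z
    by_cases hz : z ∈ tsupport (b : ℂ → ℝ)
    · have h1 : ContinuousAt (fun y => ((b y : ℝ) : ℂ)) z :=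
        (continuous_ofReal.comp b.continuous).continuousAt
      exact h1.mul (hf.continuousAt (hU.mem_nhds (hbt hz)))
    · have h0 : (b : ℂ → ℝ) =ᶠ[𝓝 z] 0 := notMem_tsupport_iff_eventuallyEq.1 hz
      refine ContinuousAt.congr (f := fun _ => (0 : ℂ)) continuousAt_const ?_
      filter_upwards [h0] with x hx
      simp [F, hx]
  have hFs : HasCompactSupport F := by
    have h1 : HasCompactSupport (fun y => ((b y : ℝ) : ℂ)) := by
      have h2 := b.hasCompactSupport.comp_left (g := fun x : ℝ => (x : ℂ)) ofReal_zero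
      exact h2
    exact h1.mul_right
  have hF1 : ∀ y ∈ Metric.closedBall z₀ (2 * r), F y = f y := by
    intro y hy
    have h1 : b y = 1 := b.one_of_mem_closedBall hy
    change ((b y : ℝ) : ℂ) * f y = f y
    rw [h1, ofReal_one, one_mul]
  have hsub : ∀ (n : ℕ) (z : ℂ), 1 / ((n : ℝ) + 1) ≤ r → z ∈ Metric.ball z₀ r →
      Metric.closedBall z (1 / ((n : ℝ) + 1)) ⊆ Metric.closedBall z₀ (2 * r) := by
    intro n z hn hz y hy
    rw [Metric.mem_closedBall] at hy ⊢
    rw [Metric.mem_ball] at hz
    have := dist_triangle y z z₀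
    linarith
  have hhol : ∀ (n : ℕ), 1 / ((n : ℝ) + 1) ≤ r →
      DifferentiableOn ℂ (mol n F) (Metric.ball z₀ r) := by
    intro n hn z hz
    obtain ⟨h1, -, h3⟩ := hMO1.1 n F hFc.locallyIntegrable
    have ht : Tst (Metric.closedBall z (1 / ((n : ℝ) + 1)))
        (fun y => (rho n (z - y) : ℂ)) := hMO1.2.1 n z
    have hsU : Metric.closedBall z (1 / ((n : ℝ) + 1)) ⊆ U := by
      refine (hsub n z hn hz).trans (Subset.trans ?_ hRU)
      refine Metric.closedBall_subset_closedBall ?_
      rw [hr]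
      linarith
    have h0 : dzb (mol n F) z = 0 := by
      rw [h3 z]
      have e : (∫ y, F y * dzb (fun y => (rho n (z - y) : ℂ)) y)
          = ∫ y, f y * dzb (fun y => (rho n (z - y) : ℂ)) y := by
        refine integral_congr_ae (ae_of_all _ fun y => ?_)
        change F y * dzb (fun y => (rho n (z - y) : ℂ)) y
          = f y * dzb (fun y => (rho n (z - y) : ℂ)) y
        by_cases hy : y ∈ tsupport (fun y => (rho n (z - y) : ℂ))
        · rw [hF1 y (hsub n z hn hz (ht.sub hy))]
        · rw [dzb_eq_zero hy, mul_zero, mul_zero]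
      rw [e, htest _ (ht.mono hsU), neg_zero]
    exact (holo_of_dzb (h1.differentiable (by simp) z) h0).differentiableWithinAt
  have hev : ∀ᶠ n : ℕ in atTop, DifferentiableOn ℂ (mol n F) (Metric.ball z₀ r) := by
    have h1 : ∀ᶠ n : ℕ in atTop, 1 / ((n : ℝ) + 1) < r :=
      (tendsto_one_div_add_atTop_nhds_zero_nat (𝕜 := ℝ)).eventually (gt_mem_nhds hr0)
    filter_upwards [h1] with n hn
    exact hhol n hn.le
  have hlim : TendstoLocallyUniformlyOn (fun n => mol n F) F atTop (Metric.ball z₀ r) :=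
    (hMO2.1 F hFc hFs).tendstoUniformlyOn.tendstoLocallyUniformlyOn
  have hd : DifferentiableOn ℂ F (Metric.ball z₀ r) :=
    hlim.differentiableOn hev Metric.isOpen_ball
  have hdF : DifferentiableAt ℂ F z₀ :=
    hd.differentiableAt (Metric.ball_mem_nhds z₀ hr0)
  have hEq : f =ᶠ[𝓝 z₀] F := by
    filter_upwards [Metric.closedBall_mem_nhds z₀ (show (0 : ℝ) < 2 * r by positivity)] with y hy
    exact (hF1 y hy).symm
  exact (hdF.congr_of_eventuallyEq hEq).differentiableWithinAt

end Pool.Agent.Helper73.QCM
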